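import Mathlib

/-!
The arithmetic of the lower bound for phased machines.
-/

set_option autoImplicit false

namespace Pool.Agent.Helper50.HA

theorem numeric (n P q r s : ℕ) (hn : 3 ≤ n) (hP : 1 ≤ P) (hq : 1 ≤ q) (hs : 1 ≤ s)
    (h : ((n / 3 : ℕ) : ℝ) ^ 3 * (1 / 3 - ((n / 3 : ℕ) : ℝ) ^ 3 / ((n ^ 4 : ℕ) : ℝ)) ≤
      2 * (((n / 3 : ℕ) : ℝ) ^ 2 * (Real.log 2 + Real.log 3) +
        P * (q * (((n / 3 : ℕ) : ℝ) * Real.log (2 * P * (s : ℝ) ^ 2) +
          r * Real.log (2 * ((n / 3 : ℕ) : ℝ) * ((n ^ 4 : ℕ) : ℝ)))))) :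
    (n : ℝ) ^ 3 ≤ 2 ^ 12 * q * P * (n * (Real.logb 2 s + Real.logb 2 n) +
      r * Real.logb 2 n) := by
  set m : ℝ := ((n / 3 : ℕ) : ℝ) with hm
  have hn3 : (3 : ℝ) ≤ n := by exact_mod_cast hn
  have hP1 : (1 : ℝ) ≤ P := by exact_mod_cast hP
  have hq1 : (1 : ℝ) ≤ q := by exact_mod_cast hq
  have hs1 : (1 : ℝ) ≤ s := by exact_mod_cast hs
  have hr0 : (0 : ℝ) ≤ r := Nat.cast_nonneg _
  have hl2 : 0 < Real.log 2 := Real.log_pos (by norm_num)
  have hl2a := Real.log_two_gt_d9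
  have hl2b := Real.log_two_lt_d9
  set L := Real.logb 2 (n : ℝ) with hL
  set σ := Real.logb 2 (s : ℝ) with hσ
  have hLl : Real.log n = L * Real.log 2 := by
    rw [hL, Real.logb]; field_simp
  have hσl : Real.log s = σ * Real.log 2 := by
    rw [hσ, Real.logb]; field_simp
  have hL1 : 1 ≤ L := by
    rw [hL, Real.le_logb_iff_rpow_le (by norm_num) (by linarith)]
    norm_num; linarith
  have hσ0 : 0 ≤ σ := Real.logb_nonneg (by norm_num) hs1
  have hPq : 1 ≤ (q : ℝ) * P := by nlinarith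
  have hL0 : 0 ≤ L := by linarith
  have hn00 : (0 : ℝ) ≤ n := by linarith
  have hbr : (n : ℝ) * L ≤ n * (σ + L) + r * L := by
    have e1 := mul_nonneg hr0 hL0
    have e2 := mul_nonneg hn00 hσ0
    nlinarith
  have hbr0 : 0 ≤ n * (σ + L) + r * L := le_trans (by positivity) hbr
  -- large number of phases
  by_cases hbig : (n : ℝ) ^ 2 < P
  · have h1 : (n : ℝ) ^ 2 * 1 ≤ q * P * 1 := by nlinarith
    calc (n : ℝ) ^ 3 = 1 * (n : ℝ) ^ 2 * (n * 1) := by ring
      _ ≤ 2 ^ 12 * (q * P) * (n * (σ + L) + r * L) := by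
          refine mul_le_mul ?_ ?_ (by linarith) (by positivity)
          · nlinarith
          · refine le_trans ?_ hbr
            exact mul_le_mul_of_nonneg_left hL1 (by linarith)
      _ = _ := by ring
  push Not at hbig
  -- small n
  by_cases hsm : n < 96
  · have h1 : (n : ℝ) ^ 2 ≤ 2 ^ 12 * L := by
      by_cases h64 : n ≤ 64
      · have : (n : ℝ) ≤ 64 := by exact_mod_cast h64
        nlinarith
      · have h65 : (64 : ℝ) ≤ n := by exact_mod_cast (by omega : 64 ≤ n)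
        have h96 : (n : ℝ) ≤ 96 := by exact_mod_cast hsm.le
        have hL6 : 6 ≤ L := by
          rw [hL, Real.le_logb_iff_rpow_le (by norm_num) (by linarith)]
          have : (2 : ℝ) ^ (6 : ℝ) = 64 := by
            rw [show (6 : ℝ) = ((6 : ℕ) : ℝ) by norm_num, Real.rpow_natCast]; norm_num
          rw [this]; exact h65
        nlinarith
    calc (n : ℝ) ^ 3 = n * (n : ℝ) ^ 2 := by ring
      _ ≤ n * (2 ^ 12 * L) := mul_le_mul_of_nonneg_left h1 (by linarith)
      _ = 2 ^ 12 * 1 * (n * L) := by ring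
      _ ≤ 2 ^ 12 * (q * P) * (n * (σ + L) + r * L) := by
          refine mul_le_mul ?_ hbr (by positivity) (by positivity)
          nlinarith
      _ = _ := by ring
  push Not at hsm
  have hm32 : (32 : ℝ) ≤ m := by
    rw [hm]; exact_mod_cast (by omega : 32 ≤ n / 3)
  have hm3 : 3 * m ≤ n := by
    rw [hm]; exact_mod_cast (by omega : 3 * (n / 3) ≤ n)
  have hm3' : (n : ℝ) ≤ 3 * m + 2 := by
    rw [hm]; exact_mod_cast (by omega : n ≤ 3 * (n / 3) + 2)
  have hn0 : (0 : ℝ) < n := by linarith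
  have hQ : ((n ^ 4 : ℕ) : ℝ) = (n : ℝ) ^ 4 := by push_cast; rfl
  rw [hQ] at h
  -- left side
  have h1 : m ^ 3 / (n : ℝ) ^ 4 ≤ 1 / 81 := by
    rw [div_le_div_iff₀ (by positivity) (by norm_num)]
    have e1 : (3 * m) ^ 3 ≤ (n : ℝ) ^ 3 := pow_le_pow_left₀ (by linarith) hm3 3
    have e2 : 3 * (n : ℝ) ^ 3 ≤ (n : ℝ) ^ 4 := by
      have : (n : ℝ) ^ 4 = n * (n : ℝ) ^ 3 := by ring
      rw [this]
      exact mul_le_mul_of_nonneg_right hn3 (by positivity)
    nlinarith
  have h2 : m ^ 3 * (26 / 81) ≤ m ^ 3 * (1 / 3 - m ^ 3 / (n : ℝ) ^ 4) :=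
    mul_le_mul_of_nonneg_left (by linarith) (by positivity)
  -- logarithms
  have h3 : Real.log 2 + Real.log 3 ≤ 1.8 := by
    have e : Real.log 3 ≤ 1.1 := by
      rw [Real.log_le_iff_le_exp (by norm_num)]
      have := Real.exp_one_gt_d9
      have e5 : Real.exp 1.1 = Real.exp 1 * Real.exp 0.1 := by
        rw [← Real.exp_add]; norm_num
      have e6 : (1.105 : ℝ) ≤ Real.exp 0.1 := by
        have := Real.quadratic_le_exp_of_nonneg (by norm_num : (0 : ℝ) ≤ 0.1)
        linarith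
      rw [e5]
      nlinarith
    linarith
  have h4 : Real.log (2 * P * (s : ℝ) ^ 2) ≤ Real.log 2 * (3 * L + 2 * σ) := by
    rw [Real.log_mul (by positivity) (by positivity), Real.log_mul (by norm_num) (by positivity),
      Real.log_pow]
    have e : Real.log P ≤ 2 * (L * Real.log 2) := by
      rw [← hLl]
      have := Real.log_le_log (by linarith) hbig
      rw [Real.log_pow] at this
      simpa using this
    rw [hσl]
    push_cast
    nlinarith
  have h5 : Real.log (2 * m * (n : ℝ) ^ 4) ≤ Real.log 2 * (5 * L) := by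
    have e : Real.log (2 * m * (n : ℝ) ^ 4) ≤ Real.log ((n : ℝ) ^ 5) := by
      refine Real.log_le_log (by positivity) ?_
      have : (n : ℝ) ^ 5 = n * (n : ℝ) ^ 4 := by ring
      rw [this]
      exact mul_le_mul_of_nonneg_right (by linarith) (by positivity)
    rw [Real.log_pow, hLl] at e
    push_cast at e
    linarith
  have hPq0 : 0 ≤ (P : ℝ) * q := by positivity
  have h6 : m * Real.log (2 * P * (s : ℝ) ^ 2) + r * Real.log (2 * m * (n : ℝ) ^ 4) ≤
      Real.log 2 * (5 * (n * (σ + L) + r * L)) := by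
    have e1 := mul_le_mul_of_nonneg_left h4 (by linarith : 0 ≤ m)
    have e2 := mul_le_mul_of_nonneg_left h5 hr0
    have e3 : m * (3 * L + 2 * σ) ≤ 5 * (n * (σ + L)) := by
      have f1 : m * L ≤ n * L := mul_le_mul_of_nonneg_right (by linarith) (by linarith)
      have f2 : m * σ ≤ n * σ := mul_le_mul_of_nonneg_right (by linarith) hσ0
      have f3 : 0 ≤ n * L := by positivity
      have f4 : 0 ≤ n * σ := by positivity
      nlinarith
    calc _ ≤ m * (Real.log 2 * (3 * L + 2 * σ)) + r * (Real.log 2 * (5 * L)) := add_le_add e1 e2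
      _ = Real.log 2 * (m * (3 * L + 2 * σ) + 5 * (r * L)) := by ring
      _ ≤ Real.log 2 * (5 * (n * (σ + L)) + 5 * (r * L)) :=
          mul_le_mul_of_nonneg_left (by linarith) hl2.le
      _ = _ := by ring
  have h7 : m ^ 3 * (26 / 81) ≤ 3.6 * m ^ 2 + 2 * ((P : ℝ) * q *
      (Real.log 2 * (5 * (n * (σ + L) + r * L)))) := by
    have e1 := mul_le_mul_of_nonneg_left h3 (by positivity : 0 ≤ m ^ 2)
    have e2 := mul_le_mul_of_nonneg_left h6 hPq0
    calc m ^ 3 * (26 / 81) ≤ _ := h2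
      _ ≤ _ := h
      _ = 2 * (m ^ 2 * (Real.log 2 + Real.log 3)) + 2 * ((P : ℝ) * q *
          (m * Real.log (2 * P * (s : ℝ) ^ 2) + r * Real.log (2 * m * (n : ℝ) ^ 4))) := by ring
      _ ≤ _ := by linarith
  have h8 : 3.6 * m ^ 2 ≤ 0.1125 * m ^ 3 := by
    have : m ^ 3 = m * m ^ 2 := by ring
    rw [this]
    nlinarith [mul_le_mul_of_nonneg_right hm32 (by positivity : 0 ≤ m ^ 2)]
  have h9 : (P : ℝ) * q * (Real.log 2 * (5 * (n * (σ + L) + r * L))) ≤
      3.4658 * (q * P * (n * (σ + L) + r * L)) := by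
    have : 0 ≤ (q : ℝ) * P * (n * (σ + L) + r * L) := by positivity
    calc (P : ℝ) * q * (Real.log 2 * (5 * (n * (σ + L) + r * L))) =
        (5 * Real.log 2) * (q * P * (n * (σ + L) + r * L)) := by ring
      _ ≤ 3.4658 * (q * P * (n * (σ + L) + r * L)) :=
          mul_le_mul_of_nonneg_right (by linarith) this
  have h10 : (n : ℝ) ^ 3 ≤ 29 * m ^ 3 := by
    have e1 : (n : ℝ) ≤ 3.0625 * m := by linarith
    calc (n : ℝ) ^ 3 ≤ (3.0625 * m) ^ 3 := pow_le_pow_left₀ hn0.le e1 3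
      _ = 3.0625 ^ 3 * m ^ 3 := by ring
      _ ≤ 29 * m ^ 3 := mul_le_mul_of_nonneg_right (by norm_num) (by positivity)
  have hX : 0 ≤ (q : ℝ) * P * (n * (σ + L) + r * L) := by positivity
  have h11 : m ^ 3 * 0.208 ≤ 7 * (q * P * (n * (σ + L) + r * L)) := by linarith
  calc (n : ℝ) ^ 3 ≤ 29 * m ^ 3 := h10
    _ ≤ 2 ^ 12 * (q * P * (n * (σ + L) + r * L)) := by linarith
    _ = _ := by ring

end Pool.Agent.Helper50.HA
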