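import Pool.Agent.Helper50.HA.Core

/-!
The two-party inequality with the coordinate of the first player replaced, in entropy form and
in the form with an arbitrary sub-probability on the transcripts.
-/

set_option autoImplicit false
set_option linter.unusedSectionVars false

open Finset
open scoped BigOperators

namespace Pool.Agent.Helper50.HA

open Pool.Agent.Helper8.VS (ind ind_nonneg ind_le_one ind_true ind_false)

variable {Y V Λ : Type} [Fintype Y] [DecidableEq Y] [Fintype V] [Nonempty V] [Fintype Λ]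

/-- With weights. `φ` is any test with values in `[0, 1]`. -/
theorem two_party_weight (τ : (Y → V) → (Y → V) → Λ)
    (hrect : ∀ a b a' b', τ a b = τ a' b' → τ a b' = τ a b)
    (W : Λ → ℝ) (hW0 : ∀ l, 0 < W l) (hW1 : ∑ l, W l ≤ 1)
    (φ : Λ → ℝ) (h0 : ∀ l, 0 ≤ φ l) (h1 : ∀ l, φ l ≤ 1) :
    ∑ y, (𝔼 a : Y → V, 𝔼 b : Y → V, (φ (τ a b) - φ (τ (Function.update a y (b y)) b))) ≤
      2 * 𝔼 a : Y → V, 𝔼 b : Y → V, -Real.log (W (τ a b)) := by
  have hr : ∀ a b a' b', τ b a = τ b' a' → τ b' a = τ b a := by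
    intro a b a' b' h
    rw [hrect b' a' b a h.symm, h]
  have key := rect_core (fun b a => τ a b) hr W hW0 hW1 (fun _ => Equiv.refl V) φ h0 h1
  simp only [Equiv.refl_apply] at key
  rw [Finset.expect_comm]
  refine le_trans (le_of_eq ?_) key
  refine Finset.sum_congr rfl fun y _ => ?_
  simp only [Finset.expect_sub_distrib]
  congr 1
  · exact Finset.expect_comm _ _ _
  · exact Finset.expect_comm _ _ _

theorem gibbs_mu {Λ : Type} [Fintype Λ] (μ : Λ → ℝ) (h0 : ∀ l, 0 ≤ μ l) (h1 : ∑ l, μ l = 1)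
    (ε : ℝ) (hε : 0 < ε) : ∃ W : Λ → ℝ, (∀ l, 0 < W l) ∧ ∑ l, W l ≤ 1 ∧
      ∑ l, μ l * -Real.log (W l) ≤ ∑ l, μ l * -Real.log (μ l) + ε := by
  classical
  have hne : Nonempty Λ := by
    by_contra h
    rw [not_nonempty_iff] at h
    simp at h1
  have hN : (0 : ℝ) < Fintype.card Λ := by exact_mod_cast Fintype.card_pos
  -- W = (1 - δ) μ + δ / N
  obtain ⟨δ, hδ0, hδ1, hδ⟩ : ∃ δ : ℝ, 0 < δ ∧ δ < 1 ∧ -Real.log (1 - δ) ≤ ε := by
    refine ⟨1 - Real.exp (-ε), ?_, ?_, ?_⟩
    · have : Real.exp (-ε) < 1 := Real.exp_lt_one_iff.2 (by linarith)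
      linarith
    · have := Real.exp_pos (-ε); linarith
    · rw [sub_sub_cancel, Real.log_exp]; linarith
  refine ⟨fun l => (1 - δ) * μ l + δ / Fintype.card Λ, ?_, ?_, ?_⟩
  · intro l
    have := mul_nonneg (by linarith : (0 : ℝ) ≤ 1 - δ) (h0 l)
    have : 0 < δ / Fintype.card Λ := by positivity
    linarith
  · rw [Finset.sum_add_distrib, ← Finset.mul_sum, h1, Finset.sum_const, Finset.card_univ,
      nsmul_eq_mul]
    have : (Fintype.card Λ : ℝ) * (δ / Fintype.card Λ) = δ := by field_simp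
    rw [this]; linarith
  · have hpt : ∀ l, μ l * -Real.log ((1 - δ) * μ l + δ / Fintype.card Λ) ≤
        μ l * -Real.log (μ l) + μ l * ε := by
      intro l
      rcases (h0 l).eq_or_lt with z | z
      · rw [← z]; simp
      · have e1 : Real.log ((1 - δ) * μ l) ≤
            Real.log ((1 - δ) * μ l + δ / Fintype.card Λ) := by
          refine Real.log_le_log (mul_pos (by linarith) z) ?_
          have : 0 < δ / (Fintype.card Λ : ℝ) := by positivity
          linarith
        rw [Real.log_mul (by linarith : (1 : ℝ) - δ ≠ 0) z.ne'] at e1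
        have e2 : -Real.log ((1 - δ) * μ l + δ / Fintype.card Λ) ≤ -Real.log (μ l) + ε := by
          linarith
        calc _ ≤ μ l * (-Real.log (μ l) + ε) := mul_le_mul_of_nonneg_left e2 z.le
          _ = _ := by ring
    calc _ ≤ ∑ l, (μ l * -Real.log (μ l) + μ l * ε) := Finset.sum_le_sum fun l _ => hpt l
      _ = _ := by rw [Finset.sum_add_distrib, ← Finset.sum_mul, h1, one_mul]

/-- Entropy form. -/
theorem two_party (τ : (Y → V) → (Y → V) → Λ)
    (hrect : ∀ a b a' b', τ a b = τ a' b' → τ a b' = τ a b) (N : Λ → Prop) :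
    ∑ y, (𝔼 a : Y → V, 𝔼 b : Y → V,
      (ind (N (τ a b)) - ind (N (τ (Function.update a y (b y)) b)))) ≤
      2 * ∑ l, (𝔼 a : Y → V, 𝔼 b : Y → V, ind (τ a b = l)) *
        (-Real.log (𝔼 a : Y → V, 𝔼 b : Y → V, ind (τ a b = l))) := by
  classical
  set μ : Λ → ℝ := fun l => 𝔼 a : Y → V, 𝔼 b : Y → V, ind (τ a b = l) with hμ
  have hgen : ∀ ψ : Λ → ℝ, 𝔼 a : Y → V, 𝔼 b : Y → V, ψ (τ a b) = ∑ l, μ l * ψ l := by
    intro ψ
    have h : ∀ a b, ψ (τ a b) = ∑ l, ind (τ a b = l) * ψ l := by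
      intro a b
      rw [Finset.sum_eq_single (τ a b)]
      · rw [ind_true rfl, one_mul]
      · intro l _ hl; rw [ind_false (fun h => hl h.symm), zero_mul]
      · intro h; exact absurd (Finset.mem_univ _) h
    simp only [h, Finset.expect_sum_comm, ← Finset.expect_mul]
    rfl
  have hμ0 : ∀ l, 0 ≤ μ l := fun l => Finset.expect_nonneg fun _ _ =>
    Finset.expect_nonneg fun _ _ => ind_nonneg _
  have hμ1 : ∑ l, μ l = 1 := by
    have := hgen (fun _ => (1 : ℝ))
    simp only [Finset.expect_const Finset.univ_nonempty, mul_one] at this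
    exact this.symm
  refine le_of_forall_pos_le_add fun ε hε => ?_
  obtain ⟨W, hW0, hW1, hW⟩ := gibbs_mu μ hμ0 hμ1 (ε / 2) (by linarith)
  have key := two_party_weight τ hrect W hW0 hW1 (fun l => ind (N l)) (fun _ => ind_nonneg _)
    (fun _ => ind_le_one _)
  rw [hgen (fun l => -Real.log (W l))] at key
  linarith

end Pool.Agent.Helper50.HA
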