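import Mathlib
import Pool.Agent.Helper8.VS.Info
import Pool.Agent.Helper8.VS.TreeL

/-!
Two players hold words `a b : V → α`; the transcript `tr a b` has the rectangle property. If one
coordinate of `b` is replaced by a bijective image of the same coordinate of `a`, the probability
of a set of transcripts drops, in total over the coordinates, by at most twice the expected
code length of the transcript.
-/

set_option autoImplicit false
set_option linter.unusedSectionVars false

open Finset
open scoped BigOperators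

namespace Pool.Agent.Helper50.HA

open Pool.Agent.Helper8.VS (resample resample' expect_prod ind ind_nonneg ind_le_one
  ind_true ind_false)

section
variable {V α : Type} [Fintype V] [DecidableEq V] [Fintype α] [Nonempty α]

/-- Squared Hellinger distance (twice) to the uniform law. -/
noncomputable def hel (f : α → ℝ) : ℝ := 𝔼 a, (√(f a) - 1) ^ 2

/-- Probability of a set. -/
noncomputable def pS (R : (V → α) → Prop) : ℝ := 𝔼 X, ind (R X)

/-- Probability of a set when one coordinate is fixed. -/
noncomputable def pC (R : (V → α) → Prop) (e : V) (a : α) : ℝ :=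
  𝔼 X, ind (R (Function.update X e a))

/-- Density of one coordinate in a set. -/
noncomputable def den (R : (V → α) → Prop) (e : V) (a : α) : ℝ :=
  pC R e a / pS R

theorem pS_nonneg (R : (V → α) → Prop) : 0 ≤ pS R := Finset.expect_nonneg fun _ _ => ind_nonneg _

theorem pS_le_one (R : (V → α) → Prop) : pS R ≤ 1 :=
  Finset.expect_le Finset.univ_nonempty fun _ _ => ind_le_one _

theorem pC_nonneg (R : (V → α) → Prop) (e : V) (a : α) : 0 ≤ pC R e a :=
  Finset.expect_nonneg fun _ _ => ind_nonneg _

theorem den_nonneg (R : (V → α) → Prop) (e : V) (a : α) : 0 ≤ den R e a :=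
  div_nonneg (pC_nonneg R e a) (pS_nonneg R)

theorem expect_pC (R : (V → α) → Prop) (e : V) : 𝔼 a, pC R e a = pS R :=
  resample' e (fun X => ind (R X))

theorem expect_den (R : (V → α) → Prop) (hR : 0 < pS R) (e : V) :
    𝔼 a, den R e a = 1 := by
  unfold den
  rw [← Finset.expect_div, expect_pC, div_self hR.ne']

theorem hel_nonneg (f : α → ℝ) : 0 ≤ hel f := Finset.expect_nonneg fun _ _ => sq_nonneg _

theorem hel_eq (f : α → ℝ) (h : ∀ a, 0 ≤ f a) (m1 : 𝔼 a, f a = 1) :
    hel f = 𝔼 a, (2 * f a - 2 * √(f a)) := by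
  unfold hel
  have e : ∀ a, (√(f a) - 1) ^ 2 = f a - 2 * √(f a) + 1 := by
    intro a
    have := Real.sq_sqrt (h a)
    nlinarith
  simp only [e, Finset.expect_add_distrib, Finset.expect_sub_distrib, ← Finset.mul_expect, m1,
    Finset.expect_const Finset.univ_nonempty]
  ring

theorem hel_le_ent (f : α → ℝ) (h : ∀ a, 0 ≤ f a) (m1 : 𝔼 a, f a = 1) :
    hel f ≤ 𝔼 a, f a * Real.log (f a) := by
  rw [hel_eq f h m1]
  refine Finset.expect_le_expect fun a _ => ?_
  rcases (h a).eq_or_lt with h0 | h0
  · rw [← h0]; simp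
  · have hs := Real.sqrt_pos.2 h0
    have e1 : Real.log (f a) = -(2 * Real.log (1 / √(f a))) := by
      rw [Real.log_div one_ne_zero hs.ne', Real.log_one, Real.log_sqrt h0.le]; ring
    have e2 : Real.log (1 / √(f a)) ≤ 1 / √(f a) - 1 :=
      Real.log_le_sub_one_of_pos (by positivity)
    have e3 : f a * (1 / √(f a)) = √(f a) := by
      rw [mul_one_div, Real.div_sqrt]
    rw [e1]
    nlinarith [mul_le_mul_of_nonneg_left e2 h0.le]

/-- Superadditivity: the coordinates of a uniform point of a large set are nearly uniform. -/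
theorem sum_hel (R : (V → α) → Prop) (hR : 0 < pS R) :
    ∑ e, hel (den R e) ≤ -Real.log (pS R) := by
  classical
  set p := pS R with hp
  have h1 : ∀ e, 𝔼 a, den R e a * Real.log (den R e a) =
      (𝔼 X, ind (R X) * Real.log (den R e (X e))) / p := by
    intro e
    rw [← resample e (fun X a => ind (R X) * Real.log (den R e a)), Finset.expect_div]
    refine Finset.expect_congr rfl fun a _ => ?_
    rw [← Finset.expect_mul]
    show pC R e a / p * _ = pC R e a * _ / p
    ring
  have h2 : ∀ X : V → α, ind (R X) * ∑ e, Real.log (den R e (X e)) ≤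
      p * (∏ e, den R e (X e)) - ind (R X) - ind (R X) * Real.log p := by
    intro X
    by_cases hX : R X
    · rw [ind_true hX]
      have hpos : ∀ e, 0 < den R e (X e) := by
        intro e
        refine div_pos ?_ hR
        unfold pC
        refine Finset.expect_pos' (fun Y _ => ind_nonneg _) ⟨X, Finset.mem_univ _, ?_⟩
        rw [Function.update_eq_self, ind_true hX]
        exact one_pos
      have e1 : Real.log (p * ∏ e, den R e (X e)) =
          Real.log p + ∑ e, Real.log (den R e (X e)) := by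
        rw [Real.log_mul hR.ne' (Finset.prod_ne_zero_iff.2 fun e _ => (hpos e).ne'),
          Real.log_prod (fun e _ => (hpos e).ne')]
      have e2 := Real.log_le_sub_one_of_pos
        (mul_pos hR (Finset.prod_pos fun e _ => hpos e) : 0 < p * ∏ e, den R e (X e))
      linarith
    · rw [ind_false hX]
      have : 0 ≤ p * ∏ e, den R e (X e) :=
        mul_nonneg hR.le (Finset.prod_nonneg fun e _ => den_nonneg R e _)
      linarith
  have h3 : 𝔼 X : V → α, ∏ e, den R e (X e) = 1 := by
    rw [expect_prod (fun e a => den R e a)]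
    simp only [expect_den R hR, Finset.prod_const_one]
  calc ∑ e, hel (den R e) ≤ ∑ e, 𝔼 a, den R e a * Real.log (den R e a) :=
        Finset.sum_le_sum fun e _ => hel_le_ent _ (den_nonneg R e) (expect_den R hR e)
    _ = (𝔼 X : V → α, ind (R X) * ∑ e, Real.log (den R e (X e))) / p := by
        simp only [h1]
        rw [← Finset.sum_div]
        congr 1
        rw [← Finset.expect_sum_comm]
        refine Finset.expect_congr rfl fun X _ => ?_
        rw [Finset.mul_sum]
    _ ≤ (𝔼 X : V → α, (p * (∏ e, den R e (X e)) - ind (R X) -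
          ind (R X) * Real.log p)) / p :=
        div_le_div_of_nonneg_right (Finset.expect_le_expect fun X _ => h2 X) hR.le
    _ = (p * 1 - p - p * Real.log p) / p := by
        congr 1
        rw [Finset.expect_sub_distrib, Finset.expect_sub_distrib, ← Finset.mul_expect, h3,
          ← Finset.expect_mul]
        rfl
    _ = -Real.log p := by field_simp; ring

/-- Two densities close to `1` are close to uncorrelated, from below. -/
theorem corr (f g : α → ℝ) (hf : ∀ a, 0 ≤ f a) (hg : ∀ a, 0 ≤ g a) (mf : 𝔼 a, f a = 1)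
    (mg : 𝔼 a, g a = 1) : 1 - 𝔼 a, f a * g a ≤ 2 * (hel f + hel g) := by
  have hm : ∀ u v : α → ℝ, (𝔼 a, u a * v a) ≤ (𝔼 a, u a ^ 2) / 2 + (𝔼 a, v a ^ 2) / 2 := by
    intro u v
    rw [Finset.expect_div, Finset.expect_div, ← Finset.expect_add_distrib]
    refine Finset.expect_le_expect fun a _ => ?_
    nlinarith [sq_nonneg (u a - v a)]
  -- E sqrt f sqrt g ≥ 1 - (hel f + hel g)
  have h1 : 1 - (hel f + hel g) ≤ 𝔼 a, √(f a) * √(g a) := by
    have e1 := hel_eq f hf mf
    have e2 := hel_eq g hg mg
    rw [Finset.expect_sub_distrib, ← Finset.mul_expect, ← Finset.mul_expect, mf] at e1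
    rw [Finset.expect_sub_distrib, ← Finset.mul_expect, ← Finset.mul_expect, mg] at e2
    have h2 := hm (fun a => -(√(f a) - 1)) (fun a => √(g a) - 1)
    have h3 : 𝔼 a, (-(√(f a) - 1)) * (√(g a) - 1) =
        -(𝔼 a, √(f a) * √(g a)) + 𝔼 a, √(f a) + 𝔼 a, √(g a) - 1 := by
      have : ∀ a, (-(√(f a) - 1)) * (√(g a) - 1) =
          -(√(f a) * √(g a)) + √(f a) + √(g a) - 1 := fun a => by ring
      simp only [this, Finset.expect_sub_distrib, Finset.expect_add_distrib,
        Finset.expect_neg_distrib, Finset.expect_const Finset.univ_nonempty]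
    have h4 : 𝔼 a, (-(√(f a) - 1)) ^ 2 = hel f := by
      unfold hel
      exact Finset.expect_congr rfl fun a _ => by ring
    have h5 : 𝔼 a, (√(g a) - 1) ^ 2 = hel g := rfl
    rw [h3, h4, h5] at h2
    linarith
  -- E f g ≥ (E sqrt f sqrt g)^2
  have h6 : (𝔼 a, √(f a) * √(g a)) ^ 2 ≤ 𝔼 a, f a * g a := by
    set m := 𝔼 a, √(f a) * √(g a) with hmdef
    have h7 : 0 ≤ 𝔼 a, (√(f a) * √(g a) - m) ^ 2 := Finset.expect_nonneg fun _ _ => sq_nonneg _
    have h8 : 𝔼 a, (√(f a) * √(g a) - m) ^ 2 = (𝔼 a, f a * g a) - m ^ 2 := by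
      have e : ∀ a, (√(f a) * √(g a) - m) ^ 2 =
          f a * g a - 2 * m * (√(f a) * √(g a)) + m ^ 2 := by
        intro a
        have q1 := Real.sq_sqrt (hf a)
        have q2 := Real.sq_sqrt (hg a)
        calc (√(f a) * √(g a) - m) ^ 2 = √(f a) ^ 2 * √(g a) ^ 2 -
              2 * m * (√(f a) * √(g a)) + m ^ 2 := by ring
          _ = _ := by rw [q1, q2]
      simp only [e, Finset.expect_add_distrib, Finset.expect_sub_distrib, ← Finset.mul_expect,
        Finset.expect_const Finset.univ_nonempty]
      rw [← hmdef]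
      ring
    linarith
  have hfn := hel_nonneg f
  have hgn := hel_nonneg g
  have hfg : 0 ≤ 𝔼 a, f a * g a := Finset.expect_nonneg fun a _ => mul_nonneg (hf a) (hg a)
  rcases le_or_gt (hel f + hel g) 1 with hle | hgt
  · have h9 : (1 - (hel f + hel g)) ^ 2 ≤ (𝔼 a, √(f a) * √(g a)) ^ 2 :=
      pow_le_pow_left₀ (by linarith) h1 2
    nlinarith
  · linarith


section rect
variable {Λ : Type} [Fintype Λ]

/-- Left side of the rectangle of a transcript. -/
def RA (tr : (V → α) → (V → α) → Λ) (l : Λ) (a : V → α) : Prop := ∃ b, tr a b = l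

/-- Right side of the rectangle of a transcript. -/
def RB (tr : (V → α) → (V → α) → Λ) (l : Λ) (b : V → α) : Prop := ∃ a, tr a b = l

variable (tr : (V → α) → (V → α) → Λ)
  (hrect : ∀ a b a' b', tr a b = tr a' b' → tr a b' = tr a b)

include hrect in
theorem rect_iff (l : Λ) (a b : V → α) : tr a b = l ↔ RA tr l a ∧ RB tr l b := by
  constructor
  · intro h
    exact ⟨⟨b, h⟩, ⟨a, h⟩⟩
  · rintro ⟨⟨b', hb⟩, ⟨a', ha⟩⟩
    rw [hrect a b' a' b (hb.trans ha.symm), hb]

include hrect in
theorem rect_sum (ψ : Λ → ℝ) (a b : V → α) :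
    ψ (tr a b) = ∑ l, ψ l * (ind (RA tr l a) * ind (RB tr l b)) := by
  classical
  rw [Finset.sum_eq_single (tr a b)]
  · obtain ⟨h1, h2⟩ := (rect_iff tr hrect (tr a b) a b).1 rfl
    rw [ind_true h1, ind_true h2]; ring
  · intro l _ hl
    by_cases h1 : RA tr l a
    · by_cases h2 : RB tr l b
      · exact absurd ((rect_iff tr hrect l a b).2 ⟨h1, h2⟩).symm hl
      · rw [ind_false h2]; ring
    · rw [ind_false h1]; ring
  · intro h; exact absurd (Finset.mem_univ _) h

include hrect in
theorem rect_expect (ψ : Λ → ℝ) :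
    𝔼 a, 𝔼 b, ψ (tr a b) = ∑ l, ψ l * (pS (RA tr l) * pS (RB tr l)) := by
  simp only [rect_sum tr hrect ψ]
  simp only [Finset.expect_sum_comm, ← Finset.mul_expect, ← Finset.expect_mul]
  rfl

include hrect in
theorem rect_planted (ψ : Λ → ℝ) (y : V) (s : α ≃ α) :
    𝔼 a, 𝔼 b, ψ (tr a (Function.update b y (s (a y)))) =
      ∑ l, ψ l * 𝔼 u, pC (RA tr l) y u * pC (RB tr l) y (s u) := by
  simp only [rect_sum tr hrect ψ]
  simp only [Finset.expect_sum_comm, ← Finset.mul_expect]
  refine Finset.sum_congr rfl fun l _ => ?_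
  congr 1
  have h := resample y (fun (a : V → α) (u : α) => ind (RA tr l a) * pC (RB tr l) y (s u))
  simp only at h
  have h2 : 𝔼 a, ind (RA tr l a) * 𝔼 b, ind (RB tr l (Function.update b y (s (a y)))) =
      𝔼 a, ind (RA tr l a) * pC (RB tr l) y (s (a y)) := rfl
  rw [h2, ← h]
  refine Finset.expect_congr rfl fun u _ => ?_
  rw [← Finset.expect_mul]
  rfl

include hrect in
/-- Main inequality: the total loss of probability of a test when the triangle is planted. -/
theorem rect_core (W : Λ → ℝ) (hW0 : ∀ l, 0 < W l) (hW1 : ∑ l, W l ≤ 1) (s : V → α ≃ α)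
    (φ : Λ → ℝ) (h0 : ∀ l, 0 ≤ φ l) (h1 : ∀ l, φ l ≤ 1) :
    ∑ y, (𝔼 a, 𝔼 b, φ (tr a b) - 𝔼 a, 𝔼 b, φ (tr a (Function.update b y (s y (a y))))) ≤
      2 * 𝔼 a, 𝔼 b, -Real.log (W (tr a b)) := by
  classical
  rw [rect_expect tr hrect φ, rect_expect tr hrect (fun l => -Real.log (W l))]
  simp only [rect_planted tr hrect φ, ← Finset.sum_sub_distrib]
  rw [Finset.sum_comm, Finset.mul_sum]
  set P : Λ → ℝ := fun l => pS (RA tr l) * pS (RB tr l) with hP
  have hP0 : ∀ l, 0 ≤ P l := fun l => mul_nonneg (pS_nonneg _) (pS_nonneg _)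
  have hP1 : ∑ l, P l = 1 := by
    have := rect_expect tr hrect (fun _ => (1 : ℝ))
    simp only [Finset.expect_const Finset.univ_nonempty, one_mul] at this
    exact this.symm
  -- one transcript
  have step : ∀ l, ∑ y, (φ l * (pS (RA tr l) * pS (RB tr l)) -
      φ l * 𝔼 u, pC (RA tr l) y u * pC (RB tr l) y (s y u)) ≤ 2 * (P l * -Real.log (P l)) := by
    intro l
    have hnn : ∀ y, 0 ≤ 𝔼 u, pC (RA tr l) y u * pC (RB tr l) y (s y u) := fun y =>
      Finset.expect_nonneg fun u _ => mul_nonneg (pC_nonneg _ _ _) (pC_nonneg _ _ _)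
    rcases (pS_nonneg (RA tr l)).eq_or_lt with hA | hA
    · have hPl : P l = 0 := by simp only [hP]; rw [← hA]; ring
      rw [hPl, ← hA]
      simp only [zero_mul, mul_zero, zero_sub]
      exact Finset.sum_nonpos fun y _ => neg_nonpos.2 (mul_nonneg (h0 l) (hnn y))
    rcases (pS_nonneg (RB tr l)).eq_or_lt with hB | hB
    · have hPl : P l = 0 := by simp only [hP]; rw [← hB]; ring
      rw [hPl, ← hB]
      simp only [mul_zero, zero_mul, zero_sub]
      exact Finset.sum_nonpos fun y _ => neg_nonpos.2 (mul_nonneg (h0 l) (hnn y))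
    have hterm : ∀ y, φ l * (pS (RA tr l) * pS (RB tr l)) -
        φ l * 𝔼 u, pC (RA tr l) y u * pC (RB tr l) y (s y u) ≤
        P l * (2 * (hel (den (RA tr l) y) + hel (den (RB tr l) y))) := by
      intro y
      have e1 : 𝔼 u, pC (RA tr l) y u * pC (RB tr l) y (s y u) =
          P l * 𝔼 u, den (RA tr l) y u * den (RB tr l) y (s y u) := by
        rw [Finset.mul_expect]
        refine Finset.expect_congr rfl fun u _ => ?_
        simp only [den, hP]
        field_simp
      have e2 := corr (den (RA tr l) y) (fun u => den (RB tr l) y (s y u))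
        (den_nonneg _ _) (fun u => den_nonneg _ _ _) (expect_den _ hA y)
        (by
          rw [Fintype.expect_equiv (s y) (fun u => den (RB tr l) y (s y u))
            (den (RB tr l) y) (fun _ => rfl)]
          exact expect_den _ hB y)
      have e3 : hel (fun u => den (RB tr l) y (s y u)) = hel (den (RB tr l) y) := by
        unfold hel
        exact Fintype.expect_equiv (s y) _ _ (fun _ => rfl)
      rw [e3] at e2
      rw [e1]
      have e4 : φ l * (pS (RA tr l) * pS (RB tr l)) -
          φ l * (P l * 𝔼 u, den (RA tr l) y u * den (RB tr l) y (s y u)) =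
          φ l * (P l * (1 - 𝔼 u, den (RA tr l) y u * den (RB tr l) y (s y u))) := by
        simp only [hP]; ring
      rw [e4]
      have hh : 0 ≤ 2 * (hel (den (RA tr l) y) + hel (den (RB tr l) y)) := by
        have := hel_nonneg (den (RA tr l) y)
        have := hel_nonneg (den (RB tr l) y)
        linarith
      calc φ l * (P l * (1 - 𝔼 u, den (RA tr l) y u * den (RB tr l) y (s y u))) ≤
          φ l * (P l * (2 * (hel (den (RA tr l) y) + hel (den (RB tr l) y)))) :=
            mul_le_mul_of_nonneg_left (mul_le_mul_of_nonneg_left e2 (hP0 l)) (h0 l)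
        _ ≤ 1 * (P l * (2 * (hel (den (RA tr l) y) + hel (den (RB tr l) y)))) :=
            mul_le_mul_of_nonneg_right (h1 l) (mul_nonneg (hP0 l) hh)
        _ = _ := one_mul _
    calc _ ≤ ∑ y, P l * (2 * (hel (den (RA tr l) y) + hel (den (RB tr l) y))) :=
          Finset.sum_le_sum fun y _ => hterm y
      _ = P l * (2 * (∑ y, hel (den (RA tr l) y) + ∑ y, hel (den (RB tr l) y))) := by
          rw [← Finset.mul_sum, ← Finset.mul_sum, Finset.sum_add_distrib]
      _ ≤ P l * (2 * (-Real.log (pS (RA tr l)) + -Real.log (pS (RB tr l)))) := by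
          refine mul_le_mul_of_nonneg_left ?_ (hP0 l)
          have := sum_hel (RA tr l) hA
          have := sum_hel (RB tr l) hB
          linarith
      _ = 2 * (P l * -Real.log (P l)) := by
          simp only [hP]
          rw [Real.log_mul hA.ne' hB.ne']
          ring
  -- Gibbs
  have gibbs : ∀ l, P l * -Real.log (P l) ≤ -Real.log (W l) * P l + (W l - P l) := by
    intro l
    rcases (hP0 l).eq_or_lt with z | z
    · rw [← z]; simp [(hW0 l).le]
    · have h2 := Real.log_le_sub_one_of_pos (div_pos (hW0 l) z)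
      rw [Real.log_div (hW0 l).ne' z.ne'] at h2
      have h3 : P l * (W l / P l) = W l := by field_simp
      nlinarith [mul_le_mul_of_nonneg_left h2 z.le]
  calc _ ≤ ∑ l, 2 * (P l * -Real.log (P l)) := Finset.sum_le_sum fun l _ => step l
    _ ≤ ∑ l, (2 * (-Real.log (W l) * P l) + 2 * (W l - P l)) :=
        Finset.sum_le_sum fun l _ => by linarith [gibbs l]
    _ = (∑ l, 2 * (-Real.log (W l) * P l)) + 2 * (∑ l, W l - ∑ l, P l) := by
        rw [Finset.sum_add_distrib, ← Finset.mul_sum, ← Finset.mul_sum,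
          Finset.sum_sub_distrib]
    _ ≤ ∑ l, 2 * (-Real.log (W l) * P l) := by rw [hP1]; linarith

end rect

end

end Pool.Agent.Helper50.HA
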