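import Mathlib

/-!
Weights for partial functions: a sub-probability on `ι → Option Msg` for which the code length is
about the sum over the defined entries of (logarithm of the number of indices + code length of
the entry).
-/

set_option autoImplicit false
set_option linter.unusedSectionVars false

open Finset
open scoped BigOperators

namespace Pool.Agent.Helper50.HA

variable {ι Msg : Type} [Fintype ι] [Fintype Msg]

/-- Weight of one entry. -/
noncomputable def wO (ι : Type) [Fintype ι] (v : Msg → ℝ) : Option Msg → ℝ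
  | none => 1 - 1 / ((Fintype.card ι : ℝ) + 1)
  | some m => v m / ((Fintype.card ι : ℝ) + 1)

/-- Weight of a partial function. -/
noncomputable def wF (v : Msg → ℝ) (τ : ι → Option Msg) : ℝ := ∏ i, wO ι v (τ i)

/-- Code length of a partial function. -/
noncomputable def len (ι : Type) [Fintype ι] (v : Msg → ℝ) : Option Msg → ℝ
  | none => 0
  | some m => Real.log ((Fintype.card ι : ℝ) + 1) - Real.log (v m)

theorem wO_pos [Nonempty ι] (v : Msg → ℝ) (hv0 : ∀ m, 0 < v m) (o : Option Msg) :
    0 < wO ι v o := by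
  have hc : (0 : ℝ) < Fintype.card ι := by exact_mod_cast Fintype.card_pos
  cases o with
  | none =>
    unfold wO
    have : 1 / ((Fintype.card ι : ℝ) + 1) < 1 := by
      rw [div_lt_one (by linarith)]; linarith
    linarith
  | some m => exact div_pos (hv0 m) (by linarith)

theorem wF_pos (v : Msg → ℝ) (hv0 : ∀ m, 0 < v m) (τ : ι → Option Msg) : 0 < wF v τ := by
  rcases isEmpty_or_nonempty ι with h | h
  · unfold wF; simp
  · exact Finset.prod_pos fun i _ => wO_pos v hv0 _

theorem sum_wO (v : Msg → ℝ) (hv1 : ∑ m, v m ≤ 1) : ∑ o, wO ι v o ≤ 1 := by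
  rw [Fintype.sum_option]
  have hc : (0 : ℝ) ≤ Fintype.card ι := Nat.cast_nonneg _
  simp only [wO, ← Finset.sum_div]
  have : (∑ m, v m) / ((Fintype.card ι : ℝ) + 1) ≤ 1 / ((Fintype.card ι : ℝ) + 1) :=
    div_le_div_of_nonneg_right hv1 (by linarith)
  linarith

theorem sum_wF [DecidableEq ι] (v : Msg → ℝ) (hv0 : ∀ m, 0 < v m) (hv1 : ∑ m, v m ≤ 1) :
    ∑ τ : ι → Option Msg, wF v τ ≤ 1 := by
  rcases isEmpty_or_nonempty ι with h | h
  · unfold wF; simp
  · unfold wF
    have e : ∑ τ : ι → Option Msg, ∏ i, wO ι v (τ i) = ∏ _i : ι, ∑ o, wO ι v o := by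
      rw [Finset.prod_univ_sum, Fintype.piFinset_univ]
    rw [e, Finset.prod_const]
    exact pow_le_one₀ (Finset.sum_nonneg fun o _ => (wO_pos v hv0 o).le) (sum_wO v hv1)

theorem log_wF (v : Msg → ℝ) (hv0 : ∀ m, 0 < v m) (τ : ι → Option Msg) :
    -Real.log (wF v τ) ≤ 1 + ∑ i, len ι v (τ i) := by
  rcases isEmpty_or_nonempty ι with h | h
  · unfold wF; simp
  · have hc : (0 : ℝ) < Fintype.card ι := by exact_mod_cast Fintype.card_pos
    unfold wF
    rw [Real.log_prod (fun i _ => (wO_pos v hv0 (τ i)).ne'), ← Finset.sum_neg_distrib]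
    have hpt : ∀ i, -Real.log (wO ι v (τ i)) ≤ 1 / (Fintype.card ι : ℝ) + len ι v (τ i) := by
      intro i
      cases hτ : τ i with
      | none =>
        simp only [wO, len, add_zero]
        have e1 : 1 - 1 / ((Fintype.card ι : ℝ) + 1) =
            (Fintype.card ι : ℝ) / ((Fintype.card ι : ℝ) + 1) := by
          field_simp; ring
        rw [e1, ← Real.log_inv, inv_div]
        have := Real.log_le_sub_one_of_pos
          (by positivity : 0 < ((Fintype.card ι : ℝ) + 1) / (Fintype.card ι : ℝ))
        have e2 : ((Fintype.card ι : ℝ) + 1) / (Fintype.card ι : ℝ) - 1 =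
            1 / (Fintype.card ι : ℝ) := by field_simp; ring
        linarith
      | some m =>
        simp only [wO, len]
        rw [Real.log_div (hv0 m).ne' (by positivity)]
        have : (0 : ℝ) < 1 / (Fintype.card ι : ℝ) := by positivity
        linarith
    calc ∑ i, -Real.log (wO ι v (τ i)) ≤ ∑ i, (1 / (Fintype.card ι : ℝ) + len ι v (τ i)) :=
          Finset.sum_le_sum fun i _ => hpt i
      _ = 1 + ∑ i, len ι v (τ i) := by
          rw [Finset.sum_add_distrib, Finset.sum_const, Finset.card_univ, nsmul_eq_mul]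
          congr 1
          field_simp

end Pool.Agent.Helper50.HA
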